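import Pool.Agent.helper94.PL.Spec

/-!
# Project pl2 (MP_af9036_an), module BUQ: uniqueness of the solution of the functional equation
-/

set_option autoImplicit false

open Complex Metric Set Filter Topology MeasureTheory MPS
open Pool.Agent.helper16.Multibrot

noncomputable section

namespace PLY

theorem BUQ : BUQ_stmt := by
  intro n c r E E' hn hr hr1 hE hE'
  have h0 : (0 : ℂ) ∈ ball (0 : ℂ) r := mem_ball_self hr
  have hEa : AnalyticOnNhd ℂ E (ball 0 r) := hE.hol.analyticOnNhd isOpen_ball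
  have hEa' : AnalyticOnNhd ℂ E' (ball 0 r) := hE'.hol.analyticOnNhd isOpen_ball
  have hc : ContinuousAt E 0 := (hEa 0 h0).continuousAt
  have hc' : ContinuousAt E' 0 := (hEa' 0 h0).continuousAt
  let A : ℂ → ℂ := fun v => ∑ i ∈ Finset.range n, E v ^ i * E' v ^ (n - 1 - i)
  have hAc : ContinuousAt A 0 := by
    refine tendsto_finsetSum _ fun i _ => ?_
    exact (hc.pow i).mul (hc'.pow _)
  have hA0 : A 0 = n := by
    simp only [A, hE.one, hE'.one, one_pow, mul_one, Finset.sum_const, Finset.card_range,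
      nsmul_eq_mul]
  have hev : ∀ᶠ v in 𝓝 (0 : ℂ), 3 / 2 < ‖A v‖ := by
    have h1 : Tendsto (fun v => ‖A v‖) (𝓝 0) (𝓝 ‖A 0‖) := hAc.norm
    refine h1.eventually (lt_mem_nhds ?_)
    rw [hA0, Complex.norm_natCast]
    have : (2 : ℝ) ≤ n := by exact_mod_cast hn
    linarith
  obtain ⟨δ, hδ, hball⟩ := Metric.eventually_nhds_iff_ball.1 hev
  set s := min (δ / 2) (r / 2) with hs
  have hs0 : 0 < s := lt_min (by linarith) (by linarith)
  have hsδ : s < δ := lt_of_le_of_lt (min_le_left _ _) (by linarith)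
  have hsr : s < r := lt_of_le_of_lt (min_le_right _ _) (by linarith)
  have hs1 : s ≤ 1 := by linarith
  have hsub : closedBall (0 : ℂ) s ⊆ ball 0 r := closedBall_subset_ball hsr
  have hcont : ContinuousOn (fun v => ‖E v - E' v‖) (closedBall (0 : ℂ) s) :=
    ((hE.hol.continuousOn.mono hsub).sub (hE'.hol.continuousOn.mono hsub)).norm
  obtain ⟨v₀, hv₀, hmax⟩ := (isCompact_closedBall (0 : ℂ) s).exists_isMaxOn
    ⟨0, mem_closedBall_self hs0.le⟩ hcont
  have hv₀r := hsub hv₀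
  have hvn : v₀ ^ n ∈ closedBall (0 : ℂ) s := by
    rw [mem_closedBall_zero_iff] at hv₀ ⊢
    rw [norm_pow]
    calc ‖v₀‖ ^ n ≤ s ^ n := pow_le_pow_left₀ (norm_nonneg _) hv₀ n
      _ ≤ s ^ 1 := pow_le_pow_of_le_one hs0.le hs1 (by omega)
      _ = s := pow_one s
  have hAv : 3 / 2 < ‖A v₀‖ := hball v₀ (by
    rw [mem_ball_zero_iff]
    rw [mem_closedBall_zero_iff] at hv₀
    linarith)
  have hid : A v₀ * (E v₀ - E' v₀) = E (v₀ ^ n) - E' (v₀ ^ n) := by
    have h1 := (Commute.all (E v₀) (E' v₀)).geom_sum₂_mul n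
    rw [show A v₀ * (E v₀ - E' v₀) = E v₀ ^ n - E' v₀ ^ n from h1, hE.fe v₀ hv₀r,
      hE'.fe v₀ hv₀r]
    ring
  have hM : ‖E v₀ - E' v₀‖ = 0 := by
    have h1 : ‖A v₀‖ * ‖E v₀ - E' v₀‖ ≤ ‖E v₀ - E' v₀‖ := by
      rw [← norm_mul, hid]
      exact hmax hvn
    have h2 := norm_nonneg (E v₀ - E' v₀)
    nlinarith
  have heq : ∀ v ∈ closedBall (0 : ℂ) s, E v = E' v := by
    intro v hv
    have h1 : ‖E v - E' v‖ ≤ ‖E v₀ - E' v₀‖ := hmax hv
    rw [hM] at h1
    exact sub_eq_zero.1 (norm_le_zero_iff.1 h1)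
  have hloc : E =ᶠ[𝓝 0] E' := by
    filter_upwards [closedBall_mem_nhds (0 : ℂ) hs0] with v hv using heq v hv
  exact hEa.eqOn_of_preconnected_of_eventuallyEq hEa' (convex_ball (0 : ℂ) r).isPreconnected h0 hloc

end PLY
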